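import Pool.Agent.helper98.CV.T1

/-!
# CV project, modules T3 and T4: the elements `a` and `z` of `ℓ₁(⊕ ℤ/p)`, and the reduction
-/

open scoped BigOperators

namespace Pool.Agent.helper28.OC

open L1G

/-- The Fourier transform at `w` as a continuous linear functional. -/
noncomputable def T3_ftL {I : Type} {p : ℕ} [NeZero p] (w : I → ZMod p) : L1 (EG I p) →L[ℂ] ℂ :=
  LinearMap.mkContinuous
    { toFun := fun f => ft f w
      map_add' := fun f g => T1_ft_add f g w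
      map_smul' := fun c f => by rw [T1_ft_smul]; rfl } 1
    (fun f => by rw [one_mul]; exact T1_norm_ft f w)

theorem T3_ftL_apply {I : Type} {p : ℕ} [NeZero p] (w : I → ZMod p) (f : L1 (EG I p)) :
    T3_ftL w f = ft f w := rfl

/-- Dirac mass. -/
noncomputable def T3_dirac {G : Type*} (x : G) : L1 G := toL1 (MonoidAlgebra.single x (1 : ℂ))

theorem T3_dirac_apply {G : Type*} [DecidableEq G] (x y : G) :
    T3_dirac x y = if x = y then (1 : ℂ) else 0 := by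
  unfold T3_dirac
  rw [toL1_apply, MonoidAlgebra.coeff_single, Finsupp.single_apply]

theorem T3_norm_dirac {G : Type*} (x : G) : ‖T3_dirac x‖ = 1 := by
  classical
  rw [norm_eq]
  rw [tsum_eq_single x]
  · rw [T3_dirac_apply]; simp
  · intro y hy
    rw [T3_dirac_apply, if_neg (Ne.symm hy), norm_zero]

theorem T3_ft_dirac {I : Type} {p : ℕ} [NeZero p] (x : EG I p) (w : I → ZMod p) :
    ft (T3_dirac x) w = T1_chi w x := by
  classical
  rw [T1_ft_eq, tsum_eq_single x]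
  · rw [T3_dirac_apply]; simp
  · intro y hy
    rw [T3_dirac_apply, if_neg (Ne.symm hy), zero_mul]

/-- The average of the Dirac masses along the coordinate `j`. -/
noncomputable def T3_psi {I : Type} {p : ℕ} [NeZero p] (j : I) : L1 (EG I p) :=
  (1 / p : ℂ) • ∑ t : ZMod p, T3_dirac (Multiplicative.ofAdd (Finsupp.single j t))

theorem T3_norm_psi {I : Type} {p : ℕ} [NeZero p] (j : I) : ‖(T3_psi j : L1 (EG I p))‖ ≤ 1 := by
  unfold T3_psi
  have hp : (0 : ℝ) < p := by exact_mod_cast Nat.pos_of_ne_zero (NeZero.ne p)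
  rw [norm_smul]
  calc ‖(1 / p : ℂ)‖ * ‖∑ t : ZMod p, T3_dirac (Multiplicative.ofAdd (Finsupp.single j t))‖
      ≤ (1 / p) * ∑ t : ZMod p, ‖T3_dirac (Multiplicative.ofAdd (Finsupp.single j t))‖ := by
        gcongr
        · simp
        · exact norm_sum_le _ _
    _ = (1 / p) * p := by simp [T3_norm_dirac, ZMod.card]
    _ = 1 := by field_simp
    _ ≤ 1 := le_rfl

theorem T3_ft_psi {I : Type} {p : ℕ} [NeZero p] (j : I) (w : I → ZMod p) :
    ft (T3_psi j : L1 (EG I p)) w = if w j = 0 then 1 else 0 := by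
  have hp : (p : ℂ) ≠ 0 := by exact_mod_cast NeZero.ne p
  have h1 : ft (T3_psi j : L1 (EG I p)) w =
      (1 / p : ℂ) * ∑ t : ZMod p, ZMod.stdAddChar (t * w j) := by
    rw [← T3_ftL_apply]
    unfold T3_psi
    rw [map_smul, map_sum, smul_eq_mul]
    congr 1
    refine Finset.sum_congr rfl fun t _ => ?_
    rw [T3_ftL_apply, T3_ft_dirac]
    unfold T1_chi
    rw [toAdd_ofAdd, Finsupp.linearCombination_single, smul_eq_mul]
  rw [h1, AddChar.sum_mulShift (w j) (ZMod.isPrimitive_stdAddChar p)]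
  split_ifs with h
  · rw [ZMod.card]; field_simp
  · simp

/-- The term of level `k`. -/
noncomputable def T3_term (C : ℕ) {p : ℕ} [NeZero p] (k : ℕ) : L1 (EG (Idx C) p) :=
  ((1 / 2 : ℂ) ^ k) • ∑ l : Fin (C * (k + 1)) × Bool, (if l.2 then (1 : ℂ) else -1) •
    (T3_psi (Sum.inl (Sum.inl ⟨k, l⟩)) + Complex.I • T3_psi (Sum.inl (Sum.inr ⟨k, l⟩)))

theorem T3_norm_term (C : ℕ) {p : ℕ} [NeZero p] (k : ℕ) :
    ‖(T3_term C k : L1 (EG (Idx C) p))‖ ≤ 4 * C * ((k + 1) * (1 / 2) ^ k) := by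
  unfold T3_term
  rw [norm_smul]
  have h0 : ∀ l : Fin (C * (k + 1)) × Bool, ‖(if l.2 then (1 : ℂ) else -1) •
      ((T3_psi (Sum.inl (Sum.inl ⟨k, l⟩)) : L1 (EG (Idx C) p)) +
        Complex.I • T3_psi (Sum.inl (Sum.inr ⟨k, l⟩)))‖ ≤ 2 := by
    intro l
    rw [norm_smul]
    have h1 : ‖(if l.2 then (1 : ℂ) else -1)‖ = 1 := by split_ifs <;> simp
    rw [h1, one_mul]
    refine (norm_add_le _ _).trans ?_
    rw [norm_smul, Complex.norm_I, one_mul]
    have h2 := T3_norm_psi (p := p) (Sum.inl (Sum.inl ⟨k, l⟩) : Idx C)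
    have h3 := T3_norm_psi (p := p) (Sum.inl (Sum.inr ⟨k, l⟩) : Idx C)
    linarith
  have h1 : ‖∑ l : Fin (C * (k + 1)) × Bool, (if l.2 then (1 : ℂ) else -1) •
      ((T3_psi (Sum.inl (Sum.inl ⟨k, l⟩)) : L1 (EG (Idx C) p)) +
        Complex.I • T3_psi (Sum.inl (Sum.inr ⟨k, l⟩)))‖ ≤ 4 * C * (k + 1) := by
    refine (norm_sum_le _ _).trans ((Finset.sum_le_sum fun l _ => h0 l).trans (le_of_eq ?_))
    rw [Finset.sum_const, Finset.card_univ, Fintype.card_prod, Fintype.card_fin, Fintype.card_bool,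
      nsmul_eq_mul]
    push_cast
    ring
  have h2 : ‖((1 / 2 : ℂ) ^ k)‖ = (1 / 2 : ℝ) ^ k := by
    rw [norm_pow]; norm_num
  rw [h2]
  calc (1 / 2 : ℝ) ^ k * _ ≤ (1 / 2 : ℝ) ^ k * (4 * C * (k + 1)) := by gcongr
    _ = 4 * C * ((k + 1) * (1 / 2) ^ k) := by ring

theorem T3_summable (C : ℕ) {p : ℕ} [NeZero p] :
    Summable fun k : ℕ => (T3_term C k : L1 (EG (Idx C) p)) := by
  refine Summable.of_norm_bounded (g := fun k : ℕ => 4 * C * (((k : ℝ) + 1) * (1 / 2) ^ k)) ?_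
    fun k => T3_norm_term C k
  apply Summable.mul_left
  have h1 : Summable fun k : ℕ => (k : ℝ) ^ 1 * (1 / 2 : ℝ) ^ k :=
    summable_pow_mul_geometric_of_norm_lt_one 1 (by norm_num)
  have h2 : Summable fun k : ℕ => (1 / 2 : ℝ) ^ k := summable_geometric_of_lt_one (by norm_num)
    (by norm_num)
  refine (h1.add h2).congr fun k => ?_
  ring

theorem T3_ft_term (C : ℕ) {p : ℕ} [NeZero p] (k : ℕ) (w : Idx C → ZMod p) :
    ft (T3_term C k : L1 (EG (Idx C) p)) w =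
      (1 / 2 : ℂ) ^ k * ∑ l : Fin (C * (k + 1)) × Bool, (if l.2 then (1 : ℂ) else -1) *
        ((if w (Sum.inl (Sum.inl ⟨k, l⟩)) = 0 then 1 else 0) +
          Complex.I * (if w (Sum.inl (Sum.inr ⟨k, l⟩)) = 0 then 1 else 0)) := by
  rw [← T3_ftL_apply]
  unfold T3_term
  rw [map_smul, map_sum, smul_eq_mul]
  congr 1
  refine Finset.sum_congr rfl fun l _ => ?_
  rw [map_smul, map_add, map_smul, T3_ftL_apply, T3_ftL_apply, T3_ft_psi, T3_ft_psi, smul_eq_mul,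
    smul_eq_mul]

theorem T3_sum_sign (N : ℕ) : ∑ l : Fin N × Bool, (if l.2 then (1 : ℂ) else -1) = 0 := by
  rw [Fintype.sum_prod_type]
  simp

theorem T3_exists_a (p C : ℕ) [Fact p.Prime] (hC : 0 < C) : ∃ a : L1 (EG (Idx C) p),
    ∀ (n m : ℕ) (w : Om p C n m), ft a (extw w) = aa w := by
  refine ⟨∑' k, T3_term C k, fun n m w => ?_⟩
  rw [← T3_ftL_apply, ContinuousLinearMap.map_tsum _ (T3_summable C)]
  rw [tsum_eq_sum (s := Finset.range n)]
  · unfold aa A1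
    simp only [T3_ftL_apply, T3_ft_term]
    push_cast
    rw [Fintype.sum_sigma, Fintype.sum_sigma, Finset.sum_mul, ← Finset.sum_add_distrib,
      ← Fin.sum_univ_eq_sum_range (fun k => (1 / 2 : ℂ) ^ k *
        ∑ l : Fin (C * (k + 1)) × Bool, (if l.2 then (1 : ℂ) else -1) *
        ((if extw w (Sum.inl (Sum.inl ⟨k, l⟩)) = 0 then 1 else 0) +
          Complex.I * (if extw w (Sum.inl (Sum.inr ⟨k, l⟩)) = 0 then 1 else 0))) n]
    refine Finset.sum_congr rfl fun k _ => ?_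
    rw [Finset.sum_mul, ← Finset.sum_add_distrib, Finset.mul_sum]
    refine Finset.sum_congr rfl fun l _ => ?_
    have h1 : extw w (Sum.inl (Sum.inl ⟨(k : ℕ), l⟩)) = w.1 ⟨k, l⟩ := by
      show ext1 w.1 ⟨(k : ℕ), l⟩ = w.1 ⟨k, l⟩
      unfold ext1
      rw [dif_pos k.2]
    have h2 : extw w (Sum.inl (Sum.inr ⟨(k : ℕ), l⟩)) = w.2.1 ⟨k, l⟩ := by
      show ext1 w.2.1 ⟨(k : ℕ), l⟩ = w.2.1 ⟨k, l⟩
      unfold ext1
      rw [dif_pos k.2]
    rw [h1, h2]
    unfold bc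
    have e1 : ((if w.1 ⟨k, l⟩ = 0 then (1 : ℝ) else 0 : ℝ) : ℂ) =
        if w.1 ⟨k, l⟩ = 0 then 1 else 0 := by split_ifs <;> simp
    have e2 : ((if w.2.1 ⟨k, l⟩ = 0 then (1 : ℝ) else 0 : ℝ) : ℂ) =
        if w.2.1 ⟨k, l⟩ = 0 then 1 else 0 := by split_ifs <;> simp
    have e3 : ((if l.2 = true then (1 : ℝ) else -1 : ℝ) : ℂ) =
        if l.2 = true then 1 else -1 := by split_ifs <;> simp
    push_cast
    rw [e1, e2, e3]
    ring
  · intro k hk
    have hk' : ¬ k < n := by simpa using hk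
    rw [T3_ftL_apply, T3_ft_term]
    have h1 : ∀ l : Fin (C * (k + 1)) × Bool, extw w (Sum.inl (Sum.inl ⟨k, l⟩)) = 0 := by
      intro l
      show ext1 w.1 ⟨k, l⟩ = 0
      unfold ext1
      rw [dif_neg hk']
    have h2 : ∀ l : Fin (C * (k + 1)) × Bool, extw w (Sum.inl (Sum.inr ⟨k, l⟩)) = 0 := by
      intro l
      show ext1 w.2.1 ⟨k, l⟩ = 0
      unfold ext1
      rw [dif_neg hk']
    simp only [h1, h2, if_true]
    rw [← Finset.sum_mul, T3_sum_sign]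
    simp

theorem T3_exists_z (p C m : ℕ) [Fact p.Prime] (hm : 0 < m) (δ : ℝ) (hδ : 0 < δ) :
    ∃ z : L1 (EG (Idx C) p), ‖z‖ < δ ∧
      ∀ (n : ℕ) (w : Om p C n m), ft z (extw w) = (zf δ w.2.2 : ℝ) := by
  have hp2 : (2 : ℝ) ≤ p := by exact_mod_cast (Fact.out : p.Prime).two_le
  have hm0 : (0 : ℝ) < m := by exact_mod_cast hm
  refine ⟨((δ / (3 * m) : ℝ) : ℂ) • (∑ i : Fin m, T3_psi (Sum.inr (i : ℕ)) -
    ((m / p : ℝ) : ℂ) • T3_dirac 1), ?_, fun n w => ?_⟩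
  · rw [norm_smul]
    have h1 : ‖∑ i : Fin m, (T3_psi (Sum.inr (i : ℕ)) : L1 (EG (Idx C) p))‖ ≤ m := by
      refine (norm_sum_le _ _).trans ?_
      refine (Finset.sum_le_sum fun i _ => T3_norm_psi _).trans (le_of_eq ?_)
      simp
    have h2 : ‖((m / p : ℝ) : ℂ) • (T3_dirac 1 : L1 (EG (Idx C) p))‖ ≤ m / 2 := by
      rw [norm_smul, T3_norm_dirac, mul_one, Complex.norm_real, Real.norm_of_nonneg (by positivity)]
      gcongr
    have h3 : ‖((δ / (3 * m) : ℝ) : ℂ)‖ = δ / (3 * m) := by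
      rw [Complex.norm_real, Real.norm_of_nonneg (by positivity)]
    rw [h3]
    calc δ / (3 * m) * _ ≤ δ / (3 * m) * (m + m / 2) := by
          gcongr
          exact (norm_sub_le _ _).trans (add_le_add h1 h2)
      _ = δ / 2 := by field_simp; ring
      _ < δ := by linarith
  · rw [← T3_ftL_apply, map_smul, map_sub, map_smul, map_sum]
    simp only [T3_ftL_apply, T3_ft_psi, T3_ft_dirac, smul_eq_mul]
    have h1 : T1_chi (extw w) (1 : EG (Idx C) p) = 1 := by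
      unfold T1_chi
      rw [toAdd_one, map_zero, AddChar.map_zero_eq_one]
    have h2 : ∀ i : Fin m, extw w (Sum.inr (i : ℕ)) = w.2.2 i := by
      intro i
      show (if h : (i : ℕ) < m then w.2.2 ⟨i, h⟩ else 0) = w.2.2 i
      rw [dif_pos i.2]
    simp only [h1, h2]
    unfold zf XX
    have e1 : ∀ i : Fin m, ((if w.2.2 i = 0 then (1 : ℝ) else 0 : ℝ) : ℂ) =
        if w.2.2 i = 0 then 1 else 0 := by intro i; split_ifs <;> simp
    push_cast
    simp only [e1]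
    ring

/-! ### Module T4 -/

/-- `extw` as an additive homomorphism. -/
noncomputable def T4_ext (p C n m : ℕ) : Om p C n m →+ (Idx C → ZMod p) where
  toFun := extw
  map_zero' := by
    funext i
    rcases i with (⟨k, l⟩ | ⟨k, l⟩) | i
    · show ext1 0 ⟨k, l⟩ = 0
      unfold ext1; split_ifs <;> rfl
    · show ext1 0 ⟨k, l⟩ = 0
      unfold ext1; split_ifs <;> rfl
    · show (if h : i < m then (0 : Omm p m) ⟨i, h⟩ else 0) = 0
      split_ifs <;> rfl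
  map_add' := by
    intro a b
    funext i
    rcases i with (⟨k, l⟩ | ⟨k, l⟩) | i
    · show ext1 (a.1 + b.1) ⟨k, l⟩ = ext1 a.1 ⟨k, l⟩ + ext1 b.1 ⟨k, l⟩
      unfold ext1; split_ifs
      · rfl
      · simp
    · show ext1 (a.2.1 + b.2.1) ⟨k, l⟩ = ext1 a.2.1 ⟨k, l⟩ + ext1 b.2.1 ⟨k, l⟩
      unfold ext1; split_ifs
      · rfl
      · simp
    · show (if h : i < m then (a.2.2 + b.2.2) ⟨i, h⟩ else 0) =
        (if h : i < m then a.2.2 ⟨i, h⟩ else 0) + (if h : i < m then b.2.2 ⟨i, h⟩ else 0)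
      split_ifs
      · rfl
      · simp

theorem T4_ext_apply {p C n m : ℕ} (w : Om p C n m) : T4_ext p C n m w = extw w := rfl

theorem T4_AB_mono {Ω : Type*} [AddCommGroup Ω] [Finite Ω] {f : Ω → ℂ} {C D : ℝ} (h : AB f C)
    (hCD : C ≤ D) : AB f D := by
  obtain ⟨c, h1, h2⟩ := h
  exact ⟨c, h1, h2.trans hCD⟩

theorem T4_not_open (p C : ℕ) [Fact p.Prime] (hC : 0 < C)
    (hfin : ∃ ε : ℝ, 0 < ε ∧ ∀ δ : ℝ, 0 < δ → ∃ n m : ℕ, 0 < m ∧ ∀ x y : Om p C n m → ℂ,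
      AB x ε → AB y ε → ¬ ∀ w, (aa w + x w) * (aa w + y w) = aa w ^ 2 + (zf δ w.2.2 : ℝ)) :
    ¬ OpenConv (EG (Idx C) p) := by
  intro hopen
  obtain ⟨ε, hε, hfin⟩ := hfin
  obtain ⟨a, ha⟩ := T3_exists_a p C hC
  have h1 : IsOpen ((fun q : L1 (EG (Idx C) p) × L1 (EG (Idx C) p) => conv q.1 q.2) ''
      (Metric.ball a ε ×ˢ Metric.ball a ε)) :=
    hopen _ (Metric.isOpen_ball.prod Metric.isOpen_ball)
  have h2 : conv a a ∈ ((fun q : L1 (EG (Idx C) p) × L1 (EG (Idx C) p) => conv q.1 q.2) ''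
      (Metric.ball a ε ×ˢ Metric.ball a ε)) :=
    ⟨(a, a), ⟨Metric.mem_ball_self hε, Metric.mem_ball_self hε⟩, rfl⟩
  obtain ⟨δ, hδ, hball⟩ := Metric.isOpen_iff.1 h1 _ h2
  obtain ⟨n, m, hm, hnot⟩ := hfin δ hδ
  obtain ⟨z, hz, hzft⟩ := T3_exists_z p C m hm δ hδ
  have h3 : conv a a + z ∈ Metric.ball (conv a a) δ := by
    rw [mem_ball_iff_norm, add_sub_cancel_left]
    exact hz
  obtain ⟨⟨u, v⟩, ⟨hu, hv⟩, huv⟩ := hball h3
  rw [mem_ball_iff_norm] at hu hv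
  refine hnot (fun w => ft (u - a) (extw w)) (fun w => ft (v - a) (extw w)) ?_ ?_ ?_
  · exact T4_AB_mono (T2_AB_ft (T4_ext p C n m) (u - a)) hu.le
  · exact T4_AB_mono (T2_AB_ft (T4_ext p C n m) (v - a)) hv.le
  · intro w
    have h4 : ∀ f : L1 (EG (Idx C) p), aa w + ft (f - a) (extw w) = ft f (extw w) := by
      intro f
      rw [← ha n m w, ← T1_ft_add, add_sub_cancel]
    rw [h4, h4, ← T1_ft_conv]
    have h5 : conv u v = conv a a + z := huv
    rw [h5, T1_ft_add, T1_ft_conv, ha, hzft, sq]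

end Pool.Agent.helper28.OC
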