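import Pool.Agent.helper28.OC.Base

/-!
# CV project, modules T1 and T2: the Fourier transform on `ℓ₁(⊕ ℤ/p)`
-/

open scoped BigOperators

namespace Pool.Agent.helper28.OC

open L1G

/-- The character of `⊕ ℤ/p` attached to `w`. -/
noncomputable def T1_chi {I : Type} {p : ℕ} [NeZero p] (w : I → ZMod p) (x : EG I p) : ℂ :=
  ZMod.stdAddChar (Finsupp.linearCombination (ZMod p) w x.toAdd)

theorem T1_chi_mul {I : Type} {p : ℕ} [NeZero p] (w : I → ZMod p) (x y : EG I p) :
    T1_chi w (x * y) = T1_chi w x * T1_chi w y := by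
  unfold T1_chi
  rw [toAdd_mul, map_add, AddChar.map_add_eq_mul]

theorem T1_norm_chi {I : Type} {p : ℕ} [NeZero p] (w : I → ZMod p) (x : EG I p) :
    ‖T1_chi w x‖ = 1 := by
  unfold T1_chi
  exact AddChar.norm_apply _ _

theorem T1_ft_eq {I : Type} {p : ℕ} [NeZero p] (f : L1 (EG I p)) (w : I → ZMod p) :
    ft f w = ∑' x, f x * T1_chi w x := rfl

theorem T1_summable_norm {I : Type} {p : ℕ} [NeZero p] (f : L1 (EG I p)) (w : I → ZMod p) :
    Summable fun x => ‖f x * T1_chi w x‖ := by
  simpa [T1_norm_chi] using summable_norm f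

theorem T1_summable {I : Type} {p : ℕ} [NeZero p] (f : L1 (EG I p)) (w : I → ZMod p) :
    Summable fun x => f x * T1_chi w x := (T1_summable_norm f w).of_norm

theorem T1_tsum_conv {G : Type*} [Group G] {F H : G → ℂ} (hF : Summable fun x => ‖F x‖)
    (hH : Summable fun x => ‖H x‖) :
    ∑' x, ∑' y, F y * H (y⁻¹ * x) = (∑' x, F x) * ∑' x, H x := by
  have h1 := (summable_conv_prod hF hH).of_norm
  rw [tsum_mul_tsum_of_summable_norm hF hH]
  rw [← h1.tsum_prod (f := fun p : G × G => F p.2 * H (p.2⁻¹ * p.1))]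
  let e : G × G ≃ G × G :=
    (Equiv.prodShear (Equiv.refl G) (fun y : G => Equiv.mulLeft y)).trans (Equiv.prodComm G G)
  rw [← e.tsum_eq]
  refine tsum_congr fun q => ?_
  simp [e, Equiv.prodShear]

theorem T1_ft_conv {I : Type} {p : ℕ} [NeZero p] (f g : L1 (EG I p)) (w : I → ZMod p) :
    ft (conv f g) w = ft f w * ft g w := by
  rw [T1_ft_eq, T1_ft_eq, T1_ft_eq, ← T1_tsum_conv (T1_summable_norm f w) (T1_summable_norm g w)]
  refine tsum_congr fun x => ?_
  rw [conv_apply, ← tsum_mul_right]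
  refine tsum_congr fun y => ?_
  have h : T1_chi w x = T1_chi w y * T1_chi w (y⁻¹ * x) := by
    rw [← T1_chi_mul, mul_inv_cancel_left]
  rw [h]
  ring

theorem T1_ft_add {I : Type} {p : ℕ} [NeZero p] (f g : L1 (EG I p)) (w : I → ZMod p) :
    ft (f + g) w = ft f w + ft g w := by
  rw [T1_ft_eq, T1_ft_eq, T1_ft_eq, ← (T1_summable f w).tsum_add (T1_summable g w)]
  refine tsum_congr fun x => ?_
  rw [lp.coeFn_add, Pi.add_apply, add_mul]

theorem T1_ft_smul {I : Type} {p : ℕ} [NeZero p] (c : ℂ) (f : L1 (EG I p)) (w : I → ZMod p) :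
    ft (c • f) w = c * ft f w := by
  rw [T1_ft_eq, T1_ft_eq, ← tsum_mul_left]
  refine tsum_congr fun x => ?_
  rw [lp.coeFn_smul, Pi.smul_apply, smul_eq_mul, mul_assoc]

theorem T1_norm_ft {I : Type} {p : ℕ} [NeZero p] (f : L1 (EG I p)) (w : I → ZMod p) :
    ‖ft f w‖ ≤ ‖f‖ := by
  rw [T1_ft_eq, norm_eq]
  refine (norm_tsum_le_tsum_norm (T1_summable_norm f w)).trans (le_of_eq ?_)
  refine tsum_congr fun x => ?_
  rw [norm_mul, T1_norm_chi, mul_one]

/-! ### Module T2 -/

/-- The character of `Ω` attached to `x`. -/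
noncomputable def T2_psi {I : Type} {p : ℕ} [NeZero p] {Ω : Type} [AddCommGroup Ω]
    (e : Ω →+ (I → ZMod p)) (x : EG I p) : AddChar Ω ℂ where
  toFun w := T1_chi (e w) x
  map_zero_eq_one' := by
    unfold T1_chi
    have : Finsupp.linearCombination (ZMod p) (0 : I → ZMod p) x.toAdd = 0 := by
      rw [Finsupp.linearCombination_apply, Finsupp.sum]
      exact Finset.sum_eq_zero fun i _ => by simp
    rw [map_zero, this, AddChar.map_zero_eq_one]
  map_add_eq_mul' := by
    intro a b
    unfold T1_chi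
    have : Finsupp.linearCombination (ZMod p) (e a + e b) x.toAdd =
        Finsupp.linearCombination (ZMod p) (e a) x.toAdd +
          Finsupp.linearCombination (ZMod p) (e b) x.toAdd := by
      rw [Finsupp.linearCombination_apply, Finsupp.linearCombination_apply,
        Finsupp.linearCombination_apply, Finsupp.sum, Finsupp.sum, Finsupp.sum,
        ← Finset.sum_add_distrib]
      exact Finset.sum_congr rfl fun i _ => by simp [mul_add]
    rw [map_add, this, AddChar.map_add_eq_mul]

theorem T2_psi_apply {I : Type} {p : ℕ} [NeZero p] {Ω : Type} [AddCommGroup Ω]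
    (e : Ω →+ (I → ZMod p)) (x : EG I p) (w : Ω) : T2_psi e x w = T1_chi (e w) x := rfl

theorem T2_AB_ft {I : Type} {p : ℕ} [NeZero p] {Ω : Type} [AddCommGroup Ω] [Finite Ω]
    (e : Ω →+ (I → ZMod p)) (f : L1 (EG I p)) : AB (fun w => ft f (e w)) ‖f‖ := by
  classical
  have hs : ∀ ψ : AddChar Ω ℂ, Summable fun x => ‖if T2_psi e x = ψ then f x else 0‖ := by
    intro ψ
    refine Summable.of_nonneg_of_le (fun _ => norm_nonneg _) (fun x => ?_) (summable_norm f)
    split_ifs
    · exact le_rfl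
    · simp
  refine ⟨fun ψ => ∑' x, if T2_psi e x = ψ then f x else 0, fun w => ?_, ?_⟩
  · have h1 : ∀ ψ : AddChar Ω ℂ, (∑' x, if T2_psi e x = ψ then f x else 0) * ψ w =
        ∑' x, (if T2_psi e x = ψ then f x * ψ w else 0) := by
      intro ψ
      rw [← tsum_mul_right]
      refine tsum_congr fun x => ?_
      split_ifs <;> simp
    have h2 : ∀ ψ : AddChar Ω ℂ, Summable fun x => (if T2_psi e x = ψ then f x * ψ w else 0) := by
      intro ψ
      have := (hs ψ).of_norm.mul_right (ψ w)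
      refine this.congr fun x => ?_
      split_ifs <;> simp
    simp only [h1]
    rw [← Summable.tsum_finsetSum fun ψ _ => h2 ψ]
    rw [T1_ft_eq]
    refine tsum_congr fun x => ?_
    rw [Finset.sum_ite_eq]
    simp [T2_psi_apply]
  · calc ∑ ψ : AddChar Ω ℂ, ‖∑' x, if T2_psi e x = ψ then f x else 0‖
        ≤ ∑ ψ : AddChar Ω ℂ, ∑' x, ‖if T2_psi e x = ψ then f x else 0‖ :=
          Finset.sum_le_sum fun ψ _ => norm_tsum_le_tsum_norm (hs ψ)
      _ = ∑' x, ∑ ψ : AddChar Ω ℂ, ‖if T2_psi e x = ψ then f x else 0‖ := by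
          rw [← Summable.tsum_finsetSum fun ψ _ => hs ψ]
      _ = ‖f‖ := by
          rw [norm_eq]
          refine tsum_congr fun x => ?_
          have : ∀ ψ : AddChar Ω ℂ, ‖if T2_psi e x = ψ then f x else 0‖ =
              if T2_psi e x = ψ then ‖f x‖ else 0 := by
            intro ψ; split_ifs <;> simp
          simp only [this]
          rw [Finset.sum_ite_eq]
          simp
      _ ≤ ‖f‖ := le_rfl

end Pool.Agent.helper28.OC
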